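import Pool.Agent.T9h58.ZN.All
import Pool.Agent.T9h58.ZN.Body
import Pool.Agent.T9h8.ZN.Mest

/-!
# The log-Brunn-Minkowski inequality for symmetric bodies and measures with `n - 2` reflections

Let `K`, `L` be origin-symmetric convex bodies in `ℝ ^ n`, `n ≥ 2`, and let `T` be a linear automorphism
such that `K` and `L` are invariant under the `n - 2` linear reflections `T⁻¹ σ_j T`, `j ≥ 2`, where `σ_j`
changes the sign of the `j`-th coordinate and the coordinates are numbered `0, …, n - 1`. Then for
`0 < t < 1` and the logarithmic combination `M` of `K` and `L` with the weights `1 - t`, `t`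

  `V(M) ≥ V(K) ^ (1 - t) V(L) ^ t`, and more generally `μ(M) ≥ μ(K) ^ (1 - t) μ(L) ^ t`

for every measure `μ` with an even log-concave density which is invariant under the same reflections.

The proof. In the plane every symmetric convex body is a zonoid, and the inequality holds in every
dimension if the logarithmic combination is a zonoid (see `ZonoidCombination`). The proof of this uses
power diagrams: for a zonotope `Z = ∑ [-z_i, z_i]` in `ℝ ^ (m + 1)` and a compact set `L` one takes the
cells of a power diagram of `L` with prescribed volumes, one cell for every linearly independent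
`(m + 1)`-tuple `A` of the `z_i`, whose site solves `z_i ⬝ ξ = c_i`, `i ∈ A`, for generic `c`. The sites
of the sets `A` which contain a given `m`-tuple lie on a line in the direction of the normal of the
corresponding facets, so the widths of their cells in this direction add up to at most the width of
`L`. The passage from the plane to dimension `n`: the fibres of `M` over the last coordinate
contain the logarithmic combinations of the fibres of `K` and `L`, and the Prékopa-Leindler inequality in
the logarithm of the last coordinate.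

This completes project ZN of helper354 (the planned steps and most proofs, with parts by many others,
are in the directory `Pool/Agent/H354R3/ZN` of the starting repository, where two steps were missing).
New parts: power diagrams with prescribed volumes (helper56), a permutation lemma (helper81), the
inequality from power diagrams (helper58), linear images (helper8).
-/

set_option autoImplicit false

open MeasureTheory
open scoped ENNReal Pointwise

namespace Pool.Agent.Results.MP_1dedaf_gt.AllButTwoReflections

variable {n : ℕ}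

/-- origin-symmetric convex body: compact, convex, nonempty interior, `-K = K` -/
structure SymmetricBody (K : Set (EuclideanSpace ℝ (Fin n))) : Prop where
  convex : Convex ℝ K
  compact : IsCompact K
  nonemptyInterior : (interior K).Nonempty
  symm : ∀ x ∈ K, -x ∈ K

/-- The support function of `K`. -/
noncomputable def support (K : Set (EuclideanSpace ℝ (Fin n))) (u : EuclideanSpace ℝ (Fin n)) : ℝ :=
  sSup ((fun y => inner ℝ y u) '' K)

/-- The logarithmic combination `(1 - t) K +₀ t L`. -/
def logSum (K L : Set (EuclideanSpace ℝ (Fin n))) (t : ℝ) : Set (EuclideanSpace ℝ (Fin n)) :=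
  {x | ∀ u : EuclideanSpace ℝ (Fin n), ‖u‖ = 1 →
    inner ℝ x u ≤ support K u ^ (1 - t) * support L u ^ t}

/-- The reflection `σ_j`: it changes the sign of the `j`-th coordinate. -/
noncomputable def flipAt (j : Fin n) (x : EuclideanSpace ℝ (Fin n)) : EuclideanSpace ℝ (Fin n) :=
  WithLp.toLp 2 (Function.update (WithLp.ofLp x) j (-(WithLp.ofLp x j)))

/-- The linear reflection `T⁻¹ σ_j T`. -/
noncomputable def reflection (T : EuclideanSpace ℝ (Fin n) ≃ₗ[ℝ] EuclideanSpace ℝ (Fin n))
    (j : Fin n) (x : EuclideanSpace ℝ (Fin n)) : EuclideanSpace ℝ (Fin n) := T.symm (flipAt j (T x))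

/-- `K` is invariant under the `n - 2` reflections `T⁻¹ σ_j T`, `j ≥ 2`. -/
def Invariant (T : EuclideanSpace ℝ (Fin n) ≃ₗ[ℝ] EuclideanSpace ℝ (Fin n))
    (K : Set (EuclideanSpace ℝ (Fin n))) : Prop :=
  ∀ j : Fin n, 2 ≤ (j : ℕ) → ∀ x ∈ K, reflection T j x ∈ K

/-- `f` is the density of an even log-concave measure, invariant under the reflections `T⁻¹ σ_j T`,
`j ≥ 2`. -/
structure Density (T : EuclideanSpace ℝ (Fin n) ≃ₗ[ℝ] EuclideanSpace ℝ (Fin n))
    (f : EuclideanSpace ℝ (Fin n) → ℝ) : Prop where
  measurable : Measurable f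
  nonneg : ∀ x, 0 ≤ f x
  even : ∀ x, f (-x) = f x
  invariant : ∀ j : Fin n, 2 ≤ (j : ℕ) → ∀ x, f (reflection T j x) = f x
  logConcave : ∀ (x y : EuclideanSpace ℝ (Fin n)) (s : ℝ), 0 < s → s < 1 →
    f x ^ (1 - s) * f y ^ s ≤ f ((1 - s) • x + s • y)

theorem SymmetricBody.sb {K : Set (EuclideanSpace ℝ (Fin n))} (h : SymmetricBody K) :
    H354ZN.SB K :=
  ⟨h.convex, h.compact, Pool.Agent.T9h58.ZN.zero_mem_interior h.convex h.symm h.nonemptyInterior,
    h.symm⟩

theorem logSum_eq {K L : Set (EuclideanSpace ℝ (Fin n))} (hK : SymmetricBody K)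
    (hL : SymmetricBody L) {t : ℝ} (h0 : 0 ≤ t) (h1 : t ≤ 1) :
    logSum K L t = H354ZN.LC K L t :=
  H354ZN.bmr_set K L t h0 h1 (Pool.Agent.T9h58.ZN.hh' n K hK.sb).1
    (Pool.Agent.T9h58.ZN.hh' n L hL.sb).1

/-- **The log-Brunn-Minkowski inequality for symmetric bodies and even log-concave measures with
`n - 2` reflections.** -/
theorem result (n : ℕ) (hn : 2 ≤ n)
    (T : EuclideanSpace ℝ (Fin n) ≃ₗ[ℝ] EuclideanSpace ℝ (Fin n))
    (K L : Set (EuclideanSpace ℝ (Fin n))) (hK : SymmetricBody K) (hL : SymmetricBody L)
    (hKT : Invariant T K) (hLT : Invariant T L) (t : ℝ) (h0 : 0 < t) (h1 : t < 1) :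
    (volume K).toReal ^ (1 - t) * (volume L).toReal ^ t ≤ (volume (logSum K L t)).toReal ∧
    ∀ f : EuclideanSpace ℝ (Fin n) → ℝ, Density T f →
      (volume.withDensity (fun x => ENNReal.ofReal (f x)) K) ^ (1 - t) *
        (volume.withDensity (fun x => ENNReal.ofReal (f x)) L) ^ t ≤
      volume.withDensity (fun x => ENNReal.ofReal (f x)) (logSum K L t) := by
  have hmest := Pool.Agent.T9h8.ZN.mest Pool.Agent.T9h58.ZN.mes Pool.Agent.T9h8.ZN.lin
  rw [logSum_eq hK hL h0.le h1.le]
  have hmM : MeasurableSet (H354ZN.LC K L t) :=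
    (Pool.Agent.T9h58.ZN.lcs n K L t hK.sb hL.sb h0.le h1.le).2.1.comp.measurableSet
  constructor
  · have h2 := hmest n T (fun _ => 1) K L t hn measurable_const (fun _ => zero_le_one)
      (fun _ => rfl) (fun _ _ _ => rfl) (fun _ _ s _ _ => by simp) hK.sb hL.sb hKT hLT h0 h1
    simp only [ENNReal.ofReal_one, lintegral_const, Measure.restrict_apply_univ, one_mul] at h2
    have h3 := ENNReal.toReal_mono (H354ZN.bmr_fin K L t h0.le h1.le hK.sb hL.sb
      (Pool.Agent.T9h58.ZN.hh' n K hK.sb).1 (Pool.Agent.T9h58.ZN.hh' n L hL.sb).1).ne h2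
    rwa [ENNReal.toReal_mul, ← ENNReal.toReal_rpow, ← ENNReal.toReal_rpow] at h3
  · intro f hf
    rw [withDensity_apply _ hK.compact.measurableSet, withDensity_apply _ hL.compact.measurableSet,
      withDensity_apply _ hmM]
    exact hmest n T f K L t hn hf.measurable hf.nonneg hf.even hf.invariant hf.logConcave hK.sb
      hL.sb hKT hLT h0 h1

end Pool.Agent.Results.MP_1dedaf_gt.AllButTwoReflections
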