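import Pool.Agent.T9h58.ZN.All
import Pool.Agent.T9h58.ZN.Body

/-!
# The log-Minkowski inequality for a zonoid and an arbitrary symmetric convex body

Let `K` be an origin-symmetric convex body in `ℝ ^ n` which is a zonoid and `L` an arbitrary
origin-symmetric convex body, `V_K` the cone-volume measure of `K` on the unit sphere. Then

  `(1 / V(K)) ∫ log (h_L / h_K) dV_K ≥ (1 / n) log (V(L) / V(K))`.

For all pairs of symmetric bodies this inequality is equivalent to the log-Brunn-Minkowski inequality.

The proof. Let `K = ∑ [-z_i, z_i]` be a zonotope in `ℝ ^ (m + 1)`. One takes the cells of a power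
diagram of `L` with prescribed volumes, one cell for every linearly independent `(m + 1)`-tuple `A` of
the `z_i`, whose site solves `z_i ⬝ ξ = c_i`, `i ∈ A`, for generic `c`. The sites of the sets `A` which
contain a given `m`-tuple `I` lie on a line in the direction of the normal of the facets which belong to
`I`, so the widths of their cells in this direction add up to at most the width of `L`, and every cell
is contained in a parallelepiped; with the inequality of the means and the formula for the volumes of
the tiles of `K` this is the theorem for zonotopes, in a stronger form. Zonoids are approximated by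
zonotopes, with the multiplicative form of the inequality and Alexandrov's variational formula.

This completes project ZN of helper354 (the planned steps and most proofs, with parts by many others,
are in the directory `Pool/Agent/H354R3/ZN` of the starting repository, where two steps were missing).
New parts: power diagrams with prescribed volumes (helper56), a permutation lemma (helper81), the
inequality from power diagrams (helper58).
-/

set_option autoImplicit false

open MeasureTheory

namespace Pool.Agent.Results.MP_1dedaf_gt.LogMinkowskiZonoids

variable {n : ℕ}

/-- origin-symmetric convex body: compact, convex, nonempty interior, `-K = K` -/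
structure SymmetricBody (K : Set (EuclideanSpace ℝ (Fin n))) : Prop where
  convex : Convex ℝ K
  compact : IsCompact K
  nonemptyInterior : (interior K).Nonempty
  symm : ∀ x ∈ K, -x ∈ K

/-- The support function of `K`. -/
noncomputable def support (K : Set (EuclideanSpace ℝ (Fin n))) (u : EuclideanSpace ℝ (Fin n)) : ℝ :=
  sSup ((fun y => inner ℝ y u) '' K)

/-- `Z` is a zonotope with centre `0`: a finite sum of segments `[-z j, z j]`. -/
def Zonotope (Z : Set (EuclideanSpace ℝ (Fin n))) : Prop :=
  ∃ (N : ℕ) (z : Fin N → EuclideanSpace ℝ (Fin n)),
    Z = {x | ∃ s : Fin N → ℝ, (∀ j, |s j| ≤ 1) ∧ x = ∑ j, s j • z j}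

/-- `M` is a zonoid with centre `0`: a compact set which is a limit of zonotopes in the Hausdorff
metric. -/
def Zonoid (M : Set (EuclideanSpace ℝ (Fin n))) : Prop :=
  IsCompact M ∧ ∀ ε : ℝ, 0 < ε → ∃ Z : Set (EuclideanSpace ℝ (Fin n)), Zonotope Z ∧
    Metric.hausdorffDist M Z < ε

/-- The outer unit normal of `K` at the boundary point on the ray through `x`: the direction of the
gradient of the norm with unit ball `K` (defined almost everywhere). -/
noncomputable def normal (K : Set (EuclideanSpace ℝ (Fin n))) (x : EuclideanSpace ℝ (Fin n)) :
    EuclideanSpace ℝ (Fin n) :=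
  ‖gradient (gauge K) x‖⁻¹ • gradient (gauge K) x

/-- The cone-volume measure of `K`: the image of Lebesgue measure on `K` under `normal K`. -/
noncomputable def coneVolume (K : Set (EuclideanSpace ℝ (Fin n))) :
    Measure (EuclideanSpace ℝ (Fin n)) :=
  Measure.map (normal K) (volume.restrict K)

theorem SymmetricBody.sb {K : Set (EuclideanSpace ℝ (Fin n))} (h : SymmetricBody K) :
    H354ZN.SB K :=
  ⟨h.convex, h.compact, Pool.Agent.T9h58.ZN.zero_mem_interior h.convex h.symm h.nonemptyInterior,
    h.symm⟩

/-- **The log-Minkowski inequality for a zonoid and an arbitrary symmetric convex body.** The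
cone-volume measure of `K` is a measure of total mass `V(K)` on the unit sphere. -/
theorem result (n : ℕ) (hn : 1 ≤ n) (K L : Set (EuclideanSpace ℝ (Fin n)))
    (hK : SymmetricBody K) (hZ : Zonoid K) (hL : SymmetricBody L) :
    coneVolume K Set.univ = volume K ∧ coneVolume K (Metric.sphere 0 1)ᶜ = 0 ∧
    Integrable (fun u => Real.log (support L u / support K u)) (coneVolume K) ∧
    1 / (n : ℝ) * Real.log ((volume L).toReal / (volume K).toReal) ≤
      1 / (volume K).toReal * ∫ u, Real.log (support L u / support K u) ∂(coneVolume K) :=
  Pool.Agent.T9h58.ZN.lmc n K L hn hK.sb hZ hL.sb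

end Pool.Agent.Results.MP_1dedaf_gt.LogMinkowskiZonoids
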