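import Pool.Agent.T9h58.ZN.All
import Pool.Agent.H354R3.ZN.T1F
import Pool.Agent.H354R3.ZN.STRONG
import Pool.Agent.H354R3.ZN.VOL

/-!
# A power form of the log-Minkowski inequality for zonotopes

Let `K = ∑ [-z_j, z_j]` be a zonotope with interior points in `ℝ ^ (m + 1)`, `m ≥ 1`. For a set `A` of
`m + 1` indices let `D_A` be the absolute value of the determinant of the `z_j`, `j ∈ A`; the numbers
`p_A = 2 ^ (m + 1) D_A / V(K)` have the sum one. For a set `I` of `m` indices let `X_I` be the
generalised cross product of the `z_i`, `i ∈ I`; if it is not zero it is a normal of a facet of `K`. Then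
for every compact set `L` with interior points and `-L = L`

  `∑_A p_A (∏_{j ∈ A} h_K(X_{A - j}) / h_L(X_{A - j})) ^ (1/m) ≤ (V(K) / V(L)) ^ (1/m)`.

By the inequality of the means the left side is at least the exponential of
`(1/m) ∑_A p_A ∑_{j ∈ A} log (h_K / h_L)(X_{A - j})`, which is the integral of `log (h_K / h_L)` with
respect to the cone-volume measure, up to the factor; so this is a stronger form of the log-Minkowski
inequality for zonotopes.

The proof: the cells of a power diagram of `L` with prescribed volumes, one cell for every `A` with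
`D_A ≠ 0`, whose site solves `z_i ⬝ ξ = c_i`, `i ∈ A`, for generic `c`. The sites of the sets `A ⊇ I`
lie on a line in the direction of `X_I`, so the widths of their cells in this direction add up to at
most the width of `L`, and every cell is contained in a parallelepiped. Then the volumes of the cells
are chosen optimally.

This completes project ZN of helper354 (directory `Pool/Agent/H354R3/ZN` of the starting repository,
with parts by many others; two steps were missing there). New parts: power diagrams with prescribed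
volumes (helper56), a permutation lemma (helper81), the inequality from power diagrams (helper58).
-/

set_option autoImplicit false

open MeasureTheory
open scoped Matrix

namespace Pool.Agent.Results.MP_1dedaf_gt.PowerMinkowskiZonotopes

variable {m N : ℕ}

/-- The zonotope `∑ [-z j, z j]`. -/
def zonotope (z : Fin N → Fin (m + 1) → ℝ) : Set (Fin (m + 1) → ℝ) :=
  {x | ∃ t : Fin N → ℝ, (∀ j, |t j| ≤ 1) ∧ x = ∑ j, t j • z j}

/-- The absolute value of the determinant of the `z j`, `j ∈ A` (zero if `A` does not have `m + 1`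
elements). -/
noncomputable def absDet (z : Fin N → Fin (m + 1) → ℝ) (A : Finset (Fin N)) : ℝ :=
  if h : A.card = m + 1 then |Matrix.det (Matrix.of fun i => z (A.orderEmbOfFin h i))| else 0

/-- The generalised cross product `X` of the `z i`, `i ∈ I`, `|I| = m`: `X ⬝ x` is the determinant
with the rows `x`, `z i`, `i ∈ I` (zero if `I` does not have `m` elements). -/
noncomputable def cross (z : Fin N → Fin (m + 1) → ℝ) (I : Finset (Fin N)) : Fin (m + 1) → ℝ :=
  if h : I.card = m then fun k => Matrix.det (Matrix.of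
    (Fin.cons (Pi.single k 1) fun i => z (I.orderEmbOfFin h i) :
      Fin (m + 1) → Fin (m + 1) → ℝ)) else 0

/-- The support function of a set. -/
noncomputable def support (L : Set (Fin (m + 1) → ℝ)) (u : Fin (m + 1) → ℝ) : ℝ :=
  sSup ((fun x => u ⬝ᵥ x) '' L)

/-- The weight `2 ^ (m + 1) D_A / V(K)`. -/
noncomputable def weight (z : Fin N → Fin (m + 1) → ℝ) (A : Finset (Fin N)) : ℝ :=
  2 ^ (m + 1) * absDet z A / (volume (zonotope z)).toReal

/-- the support function of a zonotope -/
theorem support_zonotope (z : Fin N → Fin (m + 1) → ℝ) (u : Fin (m + 1) → ℝ) :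
    support (zonotope z) u = ∑ j, |u ⬝ᵥ z j| := by
  have hval : ∀ t : Fin N → ℝ, u ⬝ᵥ (∑ j, t j • z j) = ∑ j, t j * (u ⬝ᵥ z j) := by
    intro t
    rw [dotProduct_sum]
    exact Finset.sum_congr rfl fun j _ => by rw [dotProduct_smul, smul_eq_mul]
  refine le_antisymm ?_ ?_
  · refine csSup_le ⟨_, 0, ⟨fun _ => 0, fun _ => by simp, by simp⟩, rfl⟩ ?_
    rintro _ ⟨x, ⟨t, ht, rfl⟩, rfl⟩
    show u ⬝ᵥ (∑ j, t j • z j) ≤ _
    rw [hval]
    refine Finset.sum_le_sum fun j _ => ?_
    calc t j * (u ⬝ᵥ z j) ≤ |t j * (u ⬝ᵥ z j)| := le_abs_self _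
      _ = |t j| * |u ⬝ᵥ z j| := abs_mul _ _
      _ ≤ 1 * |u ⬝ᵥ z j| := mul_le_mul_of_nonneg_right (ht j) (abs_nonneg _)
      _ = _ := one_mul _
  · refine le_csSup ⟨∑ j, |u ⬝ᵥ z j|, ?_⟩ ⟨∑ j, (SignType.sign (u ⬝ᵥ z j) : ℝ) • z j,
      ⟨fun j => (SignType.sign (u ⬝ᵥ z j) : ℝ), fun j => ?_, rfl⟩, ?_⟩
    · rintro _ ⟨x, ⟨t, ht, rfl⟩, rfl⟩
      show u ⬝ᵥ (∑ j, t j • z j) ≤ _
      rw [hval]
      refine Finset.sum_le_sum fun j _ => ?_
      calc t j * (u ⬝ᵥ z j) ≤ |t j * (u ⬝ᵥ z j)| := le_abs_self _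
        _ = |t j| * |u ⬝ᵥ z j| := abs_mul _ _
        _ ≤ 1 * |u ⬝ᵥ z j| := mul_le_mul_of_nonneg_right (ht j) (abs_nonneg _)
        _ = _ := one_mul _
    · show |(SignType.sign (u ⬝ᵥ z j) : ℝ)| ≤ 1
      rcases SignType.trichotomy (SignType.sign (u ⬝ᵥ z j)) with h | h | h <;> rw [h] <;> simp
    · show u ⬝ᵥ (∑ j, (SignType.sign (u ⬝ᵥ z j) : ℝ) • z j) = _
      rw [hval]
      exact Finset.sum_congr rfl fun j _ => sign_mul_self _

theorem strong : H354ZN.S_STRONG :=
  H354ZN.t_STRONG Pool.Agent.T9h58.ZN.s_core Pool.Agent.T9h58.ZN.ksum Pool.Agent.T9h58.ZN.perm1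

theorem vol : H354ZN.S_VOL :=
  H354ZN.t_VOL Pool.Agent.T9h58.ZN.slog Pool.Agent.T9h58.ZN.tile

/-- **The power form of the log-Minkowski inequality for zonotopes.** -/
theorem result (m N : ℕ) (hm : 1 ≤ m) (z : Fin N → Fin (m + 1) → ℝ)
    (hz : (interior (zonotope z)).Nonempty) :
    (∀ (I : Finset (Fin N)) (h : I.card = m) (x : Fin (m + 1) → ℝ), cross z I ⬝ᵥ x =
      Matrix.det (Matrix.of (Fin.cons x fun i => z (I.orderEmbOfFin h i) :
        Fin (m + 1) → Fin (m + 1) → ℝ))) ∧
    ∑ A ∈ Finset.powersetCard (m + 1) Finset.univ, weight z A = 1 ∧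
    ∀ L : Set (Fin (m + 1) → ℝ), IsCompact L → (∀ x ∈ L, -x ∈ L) → (interior L).Nonempty →
      ∑ A ∈ Finset.powersetCard (m + 1) Finset.univ, weight z A *
          (∏ j ∈ A, support (zonotope z) (cross z (A.erase j)) / support L (cross z (A.erase j))) ^
            (1 / (m : ℝ)) ≤
        ((volume (zonotope z)).toReal / (volume L).toReal) ^ (1 / (m : ℝ)) := by
  have hD : 0 < H354ZN.Dt z := H354ZN.t_POS m N z hz
  have hV : (volume (zonotope z)).toReal = 2 ^ (m + 1) * H354ZN.Dt z :=
    le_antisymm (vol m N z hD) (Pool.Agent.T9h58.ZN.tile m N z)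
  have hV0 : 0 < (volume (zonotope z)).toReal := by rw [hV]; positivity
  refine ⟨fun I h x => H354ZN.t_DOT m N z I h x, ?_, fun L h1 h2 h3 => ?_⟩
  · have h4 : ∑ A ∈ Finset.powersetCard (m + 1) Finset.univ, weight z A =
        2 ^ (m + 1) * H354ZN.Dt z / (volume (zonotope z)).toReal := by
      unfold weight H354ZN.Dt
      rw [← Finset.sum_div, ← Finset.mul_sum]
      rfl
    rw [h4, ← hV, div_self hV0.ne']
  · have h5 := (H354ZN.t_T1F strong Pool.Agent.T9h58.ZN.slog Pool.Agent.T9h58.ZN.tile vol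
      H354ZN.t_POS m N z L hm hz h1 h2 h3).1
    simp only [support_zonotope]
    exact h5

end Pool.Agent.Results.MP_1dedaf_gt.PowerMinkowskiZonotopes
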