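import Pool.Agent.T9h58.ZN.All
import Pool.Agent.T9h58.ZN.Body

/-!
# The log-Brunn-Minkowski inequality if the logarithmic combination is a zonoid

Let `K_1, …, K_q` be origin-symmetric convex bodies in `ℝ ^ n` and `t_i ≥ 0` weights with sum one. If the
logarithmic combination `M = {x | x ⬝ u ≤ ∏ h_{K_i}(u) ^ {t_i}}` is a zonoid, then
`V(M) ≥ ∏ V(K_i) ^ {t_i}`. The `K_i` are arbitrary. For `n = 2` every symmetric convex body is a zonoid.

The proof. Let `Z = ∑ [-z_i, z_i]` be a zonotope in `ℝ ^ (m + 1)` and `L` a compact set. One takes the
cells of a power diagram of `L` with prescribed volumes, one cell for every linearly independent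
`(m + 1)`-tuple `A` of the `z_i`, whose site solves `z_i ⬝ ξ = c_i`, `i ∈ A`, for generic `c`. The sites
of the sets `A` which contain a given `m`-tuple `I` lie on a line in the direction of the normal of the
facets which belong to `I`, so the widths of their cells in this direction add up to at most the width
of `L`, and every cell is contained in a parallelepiped. This gives a discrete form of the
log-Minkowski inequality for `Z` and `L`, and the theorem for zonotopes by multiplication; zonoids are
approximated by zonotopes with Alexandrov's variational formula.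

This completes project ZN of helper354 (the planned steps and most proofs, with parts by many others,
are in the directory `Pool/Agent/H354R3/ZN` of the starting repository, where two steps were missing).
New parts: power diagrams with prescribed volumes (helper56), a permutation lemma (helper81), the
inequality from power diagrams (helper58).
-/

set_option autoImplicit false

open MeasureTheory

namespace Pool.Agent.Results.MP_1dedaf_gt.ZonoidCombination

variable {n : ℕ}

/-- origin-symmetric convex body: compact, convex, nonempty interior, `-K = K` -/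
structure SymmetricBody (K : Set (EuclideanSpace ℝ (Fin n))) : Prop where
  convex : Convex ℝ K
  compact : IsCompact K
  nonemptyInterior : (interior K).Nonempty
  symm : ∀ x ∈ K, -x ∈ K

/-- The support function of `K`. -/
noncomputable def support (K : Set (EuclideanSpace ℝ (Fin n))) (u : EuclideanSpace ℝ (Fin n)) : ℝ :=
  sSup ((fun y => inner ℝ y u) '' K)

/-- The logarithmic combination of the bodies `K i` with the weights `t i`. -/
def logCombination {q : ℕ} (K : Fin q → Set (EuclideanSpace ℝ (Fin n))) (t : Fin q → ℝ) :
    Set (EuclideanSpace ℝ (Fin n)) :=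
  {x | ∀ u : EuclideanSpace ℝ (Fin n), ‖u‖ = 1 → inner ℝ x u ≤ ∏ i, support (K i) u ^ t i}

/-- `Z` is a zonotope with centre `0`: a finite sum of segments `[-z j, z j]`. -/
def Zonotope (Z : Set (EuclideanSpace ℝ (Fin n))) : Prop :=
  ∃ (N : ℕ) (z : Fin N → EuclideanSpace ℝ (Fin n)),
    Z = {x | ∃ s : Fin N → ℝ, (∀ j, |s j| ≤ 1) ∧ x = ∑ j, s j • z j}

/-- `M` is a zonoid with centre `0`: a compact set which is a limit of zonotopes in the Hausdorff
metric. -/
def Zonoid (M : Set (EuclideanSpace ℝ (Fin n))) : Prop :=
  IsCompact M ∧ ∀ ε : ℝ, 0 < ε → ∃ Z : Set (EuclideanSpace ℝ (Fin n)), Zonotope Z ∧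
    Metric.hausdorffDist M Z < ε

theorem SymmetricBody.sb {K : Set (EuclideanSpace ℝ (Fin n))} (h : SymmetricBody K) :
    H354ZN.SB K :=
  ⟨h.convex, h.compact, Pool.Agent.T9h58.ZN.zero_mem_interior h.convex h.symm h.nonemptyInterior,
    h.symm⟩

/-- **The log-Brunn-Minkowski inequality if the logarithmic combination is a zonoid.** -/
theorem result (n q : ℕ) (hn : 1 ≤ n) (K : Fin q → Set (EuclideanSpace ℝ (Fin n)))
    (t : Fin q → ℝ) (hK : ∀ i, SymmetricBody (K i)) (ht : ∀ i, 0 ≤ t i) (hsum : ∑ i, t i = 1)
    (hZ : Zonoid (logCombination K t)) :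
    ∏ i, (volume (K i)).toReal ^ t i ≤ (volume (logCombination K t)).toReal :=
  Pool.Agent.T9h58.ZN.bmz n q K t hn (fun i => (hK i).sb) ht hsum hZ

end Pool.Agent.Results.MP_1dedaf_gt.ZonoidCombination
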